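import Mathlib

set_option autoImplicit false
open Set Filter Topology

namespace Pool.Agent.CGeo

universe u v

/-- `c : ℝ → X` is a closed geodesic of period `ℓ`: it is `ℓ`-periodic and locally distance
preserving (parametrised by arc length). -/
structure IsClosedGeodesic {X : Type u} [MetricSpace X] (c : ℝ → X) (ℓ : ℝ) : Prop where
  pos : 0 < ℓ
  periodic : ∀ t, c (t + ℓ) = c t
  locIsom : ∀ t, ∃ ε > 0, ∀ s s', |s - t| < ε → |s' - t| < ε → dist (c s) (c s') = |s - s'|

/-- The same geometric geodesic: equal up to a shift and a reversal of the parameter. -/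
def Same {X : Type u} (c c' : ℝ → X) : Prop :=
  ∃ a : ℝ, (∀ t, c' t = c (t + a)) ∨ (∀ t, c' t = c (a - t))

lemma Same.refl {X : Type u} (c : ℝ → X) : Same c c := ⟨0, Or.inl fun t => by simp⟩

lemma Same.symm {X : Type u} {c c' : ℝ → X} (h : Same c c') : Same c' c := by
  obtain ⟨a, h | h⟩ := h
  · exact ⟨-a, Or.inl fun t => by rw [h]; congr 1; ring⟩
  · exact ⟨a, Or.inr fun t => by rw [h]; congr 1; ring⟩

lemma Same.trans {X : Type u} {c c' c'' : ℝ → X} (h : Same c c') (h' : Same c' c'') :
    Same c c'' := by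
  obtain ⟨a, h | h⟩ := h
  · obtain ⟨b, h' | h'⟩ := h'
    · exact ⟨b + a, Or.inl fun t => by rw [h', h]; congr 1; ring⟩
    · exact ⟨b + a, Or.inr fun t => by rw [h', h]; congr 1; ring⟩
  · obtain ⟨b, h' | h'⟩ := h'
    · exact ⟨a - b, Or.inr fun t => by rw [h', h]; congr 1; ring⟩
    · exact ⟨a - b, Or.inl fun t => by rw [h', h]; congr 1; ring⟩

/-- Closed geodesics with a period at most `T`. -/
def ClosedGeodesics (X : Type u) [MetricSpace X] (T : ℝ) : Type u :=
  {c : ℝ → X // ∃ ℓ, ℓ ≤ T ∧ IsClosedGeodesic c ℓ}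

/-- Equality up to shift and reversal of the parameter. -/
def geoSetoid (X : Type u) [MetricSpace X] (T : ℝ) : Setoid (ClosedGeodesics X T) where
  r c c' := Same c.1 c'.1
  iseqv := ⟨fun c => Same.refl c.1, fun h => Same.symm h, fun h h' => Same.trans h h'⟩

/-- Geometrically distinct closed geodesics of length at most `T`. -/
def Geo (X : Type u) [MetricSpace X] (T : ℝ) : Type u := Quotient (geoSetoid X T)

section basic

variable {X : Type u} [MetricSpace X] {c : ℝ → X} {ℓ : ℝ}

lemma IsClosedGeodesic.continuous (h : IsClosedGeodesic c ℓ) : Continuous c := by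
  rw [continuous_iff_continuousAt]
  intro t
  obtain ⟨ε, hε, hd⟩ := h.locIsom t
  rw [Metric.continuousAt_iff]
  intro δ hδ
  refine ⟨min ε δ, lt_min hε hδ, fun s hs => ?_⟩
  rw [Real.dist_eq] at hs
  rw [hd s t (lt_of_lt_of_le hs (min_le_left _ _)) (by simpa using hε)]
  exact lt_of_lt_of_le hs (min_le_right _ _)

lemma IsClosedGeodesic.add_zsmul (h : IsClosedGeodesic c ℓ) (k : ℤ) (t : ℝ) :
    c (t + k * ℓ) = c t := by
  have h1 : Function.Periodic c ℓ := h.periodic
  have := h1.int_mul k t
  simpa using this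

/-- A closed geodesic is not equal to a reversal of itself. -/
lemma IsClosedGeodesic.no_reversal (h : IsClosedGeodesic c ℓ) (b : ℝ)
    (hb : ∀ t, c t = c (b - t)) : False := by
  obtain ⟨ε, hε, hd⟩ := h.locIsom (b / 2)
  have h1 := hd (b / 2 + ε / 2) (b / 2 - ε / 2)
    (by rw [show b / 2 + ε / 2 - b / 2 = ε / 2 by ring, abs_of_pos (by positivity)]; linarith)
    (by rw [show b / 2 - ε / 2 - b / 2 = -(ε / 2) by ring, abs_neg, abs_of_pos (by positivity)]
        linarith)
  have h2 := hb (b / 2 + ε / 2)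
  rw [show b - (b / 2 + ε / 2) = b / 2 - ε / 2 by ring] at h2
  rw [h2, dist_self, show b / 2 + ε / 2 - (b / 2 - ε / 2) = ε by ring, abs_of_pos hε] at h1
  linarith

omit [MetricSpace X] in
/-- reduce a shift modulo a period -/
lemma exists_mem_Icc_shift {q : ℝ} (hq : 0 < q) (hper : ∀ t, c (t + q) = c t) (a : ℝ) :
    ∃ b ∈ Icc (0 : ℝ) q, (∀ t, c (t + a) = c (t + b)) ∧ (∀ t, c (a - t) = c (b - t)) ∧
      ∃ k : ℤ, a = b + k * q := by
  have h1 : Function.Periodic c q := hper
  refine ⟨a - ⌊a / q⌋ * q, ⟨?_, ?_⟩, ?_, ?_, ⌊a / q⌋, by ring⟩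
  · have := Int.floor_le (a / q)
    rw [le_div_iff₀ hq] at this
    linarith
  · have := (Int.lt_floor_add_one (a / q)).le
    rw [div_le_iff₀ hq] at this
    linarith
  · intro t
    have := h1.int_mul ⌊a / q⌋ (t + (a - ⌊a / q⌋ * q))
    rw [← this]
    congr 1
    ring
  · intro t
    have := h1.int_mul ⌊a / q⌋ (a - ⌊a / q⌋ * q - t)
    rw [← this]
    congr 1
    ring

end basic

section action

variable {X : Type u} [MetricSpace X] {G : Type v} [Group G] [TopologicalSpace G]
  [IsTopologicalGroup G] [CompactSpace G] [T2Space G] [ConnectedSpace G]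
  [MulAction G X] [ContinuousSMul G X] [IsIsometricSMul G X] {c : ℝ → X} {ℓ : ℝ}

omit [TopologicalSpace G] [IsTopologicalGroup G] [CompactSpace G] [T2Space G] [ConnectedSpace G]
  [ContinuousSMul G X] in
lemma IsClosedGeodesic.smul (h : IsClosedGeodesic c ℓ) (g : G) :
    IsClosedGeodesic (fun t => g • c t) ℓ where
  pos := h.pos
  periodic t := by rw [h.periodic]
  locIsom t := by
    obtain ⟨ε, hε, hd⟩ := h.locIsom t
    exact ⟨ε, hε, fun s s' hs hs' => by rw [dist_smul, hd s s' hs hs']⟩

omit [ConnectedSpace G] [IsIsometricSMul G X] [IsTopologicalGroup G] in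
lemma isClosed_shift (hc : Continuous c) (K : Set ℝ) (hK : IsCompact K) :
    IsClosed {g : G | ∃ a ∈ K, ∀ t, g • c t = c (t + a)} := by
  have h1 : IsClosed {p : G × ℝ | ∀ t, p.1 • c t = c (t + p.2)} := by
    rw [show {p : G × ℝ | ∀ t, p.1 • c t = c (t + p.2)} =
      ⋂ t, {p : G × ℝ | p.1 • c t = c (t + p.2)} by ext; simp]
    exact isClosed_iInter fun t => isClosed_eq (by fun_prop) (by fun_prop)
  have h2 : IsCompact ((univ : Set G) ×ˢ K ∩ {p : G × ℝ | ∀ t, p.1 • c t = c (t + p.2)}) :=
    (isCompact_univ.prod hK).inter_right h1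
  have h3 := (h2.image continuous_fst).isClosed
  convert h3 using 1
  ext g
  simp only [mem_ofPred_eq, mem_image, mem_inter_iff, mem_prod, mem_univ, true_and, Prod.exists]
  constructor
  · rintro ⟨a, ha, h⟩
    exact ⟨g, a, ⟨ha, h⟩, rfl⟩
  · rintro ⟨g', a, ⟨ha, h⟩, rfl⟩
    exact ⟨a, ha, h⟩

omit [ConnectedSpace G] [IsIsometricSMul G X] [IsTopologicalGroup G] in
lemma isClosed_refl (hc : Continuous c) (K : Set ℝ) (hK : IsCompact K) :
    IsClosed {g : G | ∃ a ∈ K, ∀ t, g • c t = c (a - t)} := by
  have h1 : IsClosed {p : G × ℝ | ∀ t, p.1 • c t = c (p.2 - t)} := by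
    rw [show {p : G × ℝ | ∀ t, p.1 • c t = c (p.2 - t)} =
      ⋂ t, {p : G × ℝ | p.1 • c t = c (p.2 - t)} by ext; simp]
    exact isClosed_iInter fun t => isClosed_eq (by fun_prop) (by fun_prop)
  have h2 : IsCompact ((univ : Set G) ×ˢ K ∩ {p : G × ℝ | ∀ t, p.1 • c t = c (p.2 - t)}) :=
    (isCompact_univ.prod hK).inter_right h1
  have h3 := (h2.image continuous_fst).isClosed
  convert h3 using 1
  ext g
  simp only [mem_ofPred_eq, mem_image, mem_inter_iff, mem_prod, mem_univ, true_and, Prod.exists]
  constructor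
  · rintro ⟨a, ha, h⟩
    exact ⟨g, a, ⟨ha, h⟩, rfl⟩
  · rintro ⟨g', a, ⟨ha, h⟩, rfl⟩
    exact ⟨a, ha, h⟩

/-- The subgroup of elements which map `c` to itself up to shift and reversal. -/
def stab (G : Type v) [Group G] [MulAction G X] (c : ℝ → X) : Subgroup G where
  carrier := {g | Same c (fun t => g • c t)}
  one_mem' := by
    show Same c (fun t => (1 : G) • c t)
    simpa using Same.refl c
  mul_mem' := by
    rintro g h ⟨a, ha⟩ ⟨b, hb⟩
    show Same c (fun t => (g * h) • c t)
    rcases hb with hb | hb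
    · rcases ha with ha | ha
      · exact ⟨b + a, Or.inl fun t => by
          show (g * h) • c t = _
          rw [mul_smul, show h • c t = c (t + b) from hb t,
            show g • c (t + b) = c (t + b + a) from ha (t + b)]; congr 1; ring⟩
      · exact ⟨a - b, Or.inr fun t => by
          show (g * h) • c t = _
          rw [mul_smul, show h • c t = c (t + b) from hb t,
            show g • c (t + b) = c (a - (t + b)) from ha (t + b)]; congr 1; ring⟩
    · rcases ha with ha | ha
      · exact ⟨b + a, Or.inr fun t => by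
          show (g * h) • c t = _
          rw [mul_smul, show h • c t = c (b - t) from hb t,
            show g • c (b - t) = c (b - t + a) from ha (b - t)]; congr 1; ring⟩
      · exact ⟨a - b, Or.inl fun t => by
          show (g * h) • c t = _
          rw [mul_smul, show h • c t = c (b - t) from hb t,
            show g • c (b - t) = c (a - (b - t)) from ha (b - t)]; congr 1; ring⟩
  inv_mem' := by
    rintro g ⟨a, ha⟩
    show Same c (fun t => g⁻¹ • c t)
    rcases ha with ha | ha
    · refine ⟨-a, Or.inl fun t => ?_⟩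
      show g⁻¹ • c t = _
      rw [inv_smul_eq_iff]
      have h1 : g • c (t + -a) = c (t + -a + a) := ha (t + -a)
      rw [h1]; congr 1; ring
    · refine ⟨a, Or.inr fun t => ?_⟩
      show g⁻¹ • c t = _
      rw [inv_smul_eq_iff]
      have h1 : g • c (a - t) = c (a - (a - t)) := ha (a - t)
      rw [h1]; congr 1; ring

omit [ConnectedSpace G] [IsIsometricSMul G X] [IsTopologicalGroup G] in
lemma stab_isClosed (h : IsClosedGeodesic c ℓ) : IsClosed (stab G c : Set G) := by
  have h1 := isClosed_shift (G := G) h.continuous (Icc 0 ℓ) isCompact_Icc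
  have h2 := isClosed_refl (G := G) h.continuous (Icc 0 ℓ) isCompact_Icc
  convert h1.union h2 using 1
  ext g
  constructor
  · rintro ⟨a, ha⟩
    obtain ⟨b, hb, hb1, hb2, -⟩ := exists_mem_Icc_shift (c := c) h.pos h.periodic a
    rcases ha with ha | ha
    · left
      exact ⟨b, hb, fun t => by rw [← hb1]; exact ha t⟩
    · right
      exact ⟨b, hb, fun t => by rw [← hb2]; exact ha t⟩
  · rintro (⟨a, -, ha⟩ | ⟨a, -, ha⟩)
    · exact ⟨a, Or.inl ha⟩
    · exact ⟨a, Or.inr ha⟩

/-- If there are only countably many geometrically distinct closed geodesics of length at most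
`T`, then every element of the connected group `G` shifts every such geodesic along itself. -/
theorem shift_of_countable {T : ℝ} [Countable (Geo X T)] (hT : ℓ ≤ T)
    (h : IsClosedGeodesic c ℓ) (g : G) : ∃ a ∈ Icc (0 : ℝ) ℓ, ∀ t, g • c t = c (t + a) := by
  -- the orbit map into the set of classes
  let cls : G → Geo X T := fun g => Quotient.mk (geoSetoid X T)
    ⟨fun t => g • c t, ℓ, hT, h.smul g⟩
  have hcls : ∀ g g' : G, cls g = cls g' ↔ g⁻¹ * g' ∈ stab G c := by
    intro g g'
    rw [show cls g = cls g' ↔ Same (fun t => g • c t) (fun t => g' • c t) from Quotient.eq]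
    constructor
    · rintro ⟨a, ha⟩
      refine ⟨a, ?_⟩
      rcases ha with ha | ha
      · left
        intro t
        show (g⁻¹ * g') • c t = _
        rw [mul_smul, inv_smul_eq_iff]
        exact ha t
      · right
        intro t
        show (g⁻¹ * g') • c t = _
        rw [mul_smul, inv_smul_eq_iff]
        exact ha t
    · rintro ⟨a, ha⟩
      refine ⟨a, ?_⟩
      rcases ha with ha | ha
      · left
        intro t
        have h1 : (g⁻¹ * g') • c t = c (t + a) := ha t
        rw [mul_smul, inv_smul_eq_iff] at h1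
        exact h1
      · right
        intro t
        have h1 : (g⁻¹ * g') • c t = c (a - t) := ha t
        rw [mul_smul, inv_smul_eq_iff] at h1
        exact h1
  have hclosed : ∀ q : Geo X T, IsClosed {g : G | cls g = q} := by
    intro q
    by_cases hq : ∃ x, cls x = q
    · obtain ⟨x, rfl⟩ := hq
      have h1 : {g : G | cls g = cls x} = (fun g => x⁻¹ * g) ⁻¹' (stab G c : Set G) := by
        ext g
        show cls g = cls x ↔ x⁻¹ * g ∈ stab G c
        rw [← hcls, eq_comm]
      rw [h1]
      exact (stab_isClosed h).preimage (by fun_prop)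
    · push Not at hq
      have : {g : G | cls g = q} = ∅ := by
        ext g
        simpa using hq g
      rw [this]
      exact isClosed_empty
  have hU : ⋃ q : Geo X T, {g : G | cls g = q} = univ := by
    ext g
    simp
  obtain ⟨q, g0, hg0⟩ := nonempty_interior_of_iUnion_of_closed hclosed hU
  have hmem : {g : G | cls g = q} ∈ 𝓝 g0 := mem_interior_iff_mem_nhds.1 hg0
  have hq : cls g0 = q := by
    have h1 : g0 ∈ {g : G | cls g = q} := interior_subset hg0
    exact h1
  have hnhds : (stab G c : Set G) ∈ 𝓝 (1 : G) := by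
    have h1 : Tendsto (fun g => g0 * g) (𝓝 (1 : G)) (𝓝 g0) := by
      have : Continuous fun g : G => g0 * g := by fun_prop
      simpa using this.tendsto 1
    filter_upwards [h1 hmem] with g hg
    have h2 : cls g0 = cls (g0 * g) := by rw [hq]; exact hg.symm
    rw [hcls] at h2
    simpa using h2
  have hopen : IsOpen (stab G c : Set G) := Subgroup.isOpen_of_mem_nhds _ hnhds
  have hstab : (stab G c : Set G) = univ :=
    IsClopen.eq_univ ⟨stab_isClosed h, hopen⟩ ⟨1, (stab G c).one_mem⟩
  -- exclude reversals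
  set A : Set G := {g : G | ∃ a ∈ Icc (0 : ℝ) ℓ, ∀ t, g • c t = c (t + a)} with hA
  set B : Set G := {g : G | ∃ a ∈ Icc (0 : ℝ) ℓ, ∀ t, g • c t = c (a - t)} with hB
  have hAc : IsClosed A := isClosed_shift h.continuous _ isCompact_Icc
  have hBc : IsClosed B := isClosed_refl h.continuous _ isCompact_Icc
  have hcompl : Aᶜ = B := by
    ext g
    constructor
    · intro hg
      have h1 : g ∈ (stab G c : Set G) := by rw [hstab]; trivial
      obtain ⟨a, ha⟩ := h1
      obtain ⟨b, hb, hb1, hb2, -⟩ := exists_mem_Icc_shift (c := c) h.pos h.periodic a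
      rcases ha with ha | ha
      · exact absurd ⟨b, hb, fun t => by rw [← hb1]; exact ha t⟩ hg
      · exact ⟨b, hb, fun t => by rw [← hb2]; exact ha t⟩
    · rintro ⟨b, -, hb⟩ ⟨a, -, ha⟩
      refine h.no_reversal (b + a) fun t => ?_
      have h1 := ha (t - a)
      have h2 := hb (t - a)
      rw [h1] at h2
      rw [sub_add_cancel] at h2
      rw [h2]
      congr 1
      ring
  have hAu : A = univ := by
    refine IsClopen.eq_univ ⟨hAc, ?_⟩ ⟨1, 0, ⟨le_refl _, h.pos.le⟩, fun t => by simp⟩
    rw [← isClosed_compl_iff, hcompl]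
    exact hBc
  have : g ∈ A := by rw [hAu]; trivial
  exact this

end action

end Pool.Agent.CGeo
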