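import Mathlib
import Pool.Agent.CGeo.Basic

set_option autoImplicit false
open Set Filter Topology

namespace Pool.Agent.CGeo

universe u v

/-- Approximate segments exist between any two points. -/
def HasApproxSegments (X : Type u) [MetricSpace X] : Prop :=
  ∀ x y : X, ∀ ε > 0, ∃ f : ℝ → X, f 0 = x ∧ f (dist x y) = y ∧
    ∀ s t, 0 ≤ s → s ≤ t → t ≤ dist x y → |dist (f s) (f t) - (t - s)| ≤ ε

variable {X : Type u} [MetricSpace X] [CompactSpace X]

/-- In a compact space approximate segments give segments. -/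
theorem exists_segment (hX : HasApproxSegments X) (x y : X) :
    ∃ σ : ℝ → X, σ 0 = x ∧ σ (dist x y) = y ∧
      ∀ s t, 0 ≤ s → s ≤ t → t ≤ dist x y → dist (σ s) (σ t) = t - s := by
  choose f hf0 hf1 hf2 using fun n : ℕ => hX x y (1 / ((n : ℝ) + 1)) (by positivity)
  let U : Ultrafilter ℕ := hyperfilter ℕ
  have hne : Nonempty X := ⟨x⟩
  let σ : ℝ → X := fun t => (U.map (fun n => f n t)).lim
  have hσ : ∀ t, Tendsto (fun n => f n t) U (𝓝 (σ t)) := by
    intro t
    exact (U.map (fun n => f n t)).le_nhds_lim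
  have hU : (U : Filter ℕ) ≤ atTop := by
    rw [← Nat.cofinite_eq_atTop]
    exact hyperfilter_le_cofinite
  refine ⟨σ, ?_, ?_, ?_⟩
  · have h1 : Tendsto (fun n => f n 0) U (𝓝 x) := by
      simp only [hf0]
      exact tendsto_const_nhds
    exact tendsto_nhds_unique (hσ 0) h1
  · have h1 : Tendsto (fun n => f n (dist x y)) U (𝓝 y) := by
      simp only [hf1]
      exact tendsto_const_nhds
    exact tendsto_nhds_unique (hσ _) h1
  · intro s t hs hst ht
    have h1 : Tendsto (fun n => dist (f n s) (f n t)) U (𝓝 (dist (σ s) (σ t))) :=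
      (hσ s).dist (hσ t)
    have h2 : Tendsto (fun n => dist (f n s) (f n t)) U (𝓝 (t - s)) := by
      rw [← tendsto_sub_nhds_zero_iff]
      refine squeeze_zero_norm (a := fun n : ℕ => 1 / ((n : ℝ) + 1)) ?_ ?_
      · intro n
        rw [Real.norm_eq_abs]
        exact hf2 n s t hs hst ht
      · exact (tendsto_one_div_add_atTop_nhds_zero_nat (𝕜 := ℝ)).mono_left hU
    exact tendsto_nhds_unique h1 h2

variable {G : Type v} [Group G] [MulAction G X] [IsIsometricSMul G X]

/-- A fixed point free isometry of finite order has an axis which is a closed geodesic. -/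
theorem exists_closedGeodesic (hX : HasApproxSegments X) [Nonempty X] (g : G) (n : ℕ)
    (hn : 0 < n) (hgn : g ^ n = 1) (hfix : ∀ x : X, g • x ≠ x) :
    ∃ (c : ℝ → X) (ℓ : ℝ), IsClosedGeodesic c ℓ := by
  -- a point of minimal displacement
  have hcont : Continuous fun x : X => dist x (g • x) :=
    continuous_id.dist (isometry_smul X g).continuous
  obtain ⟨y, -, hy⟩ := isCompact_univ.exists_isMinOn univ_nonempty hcont.continuousOn
  have hmin : ∀ x : X, dist y (g • y) ≤ dist x (g • x) := fun x => hy (mem_univ x)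
  set D := dist y (g • y) with hD
  have hDpos : 0 < D := dist_pos.2 (hfix y).symm
  obtain ⟨σ, hσ0, hσ1, hσ⟩ := exists_segment hX y (g • y)
  rw [← hD] at hσ1 hσ
  -- the axis
  let c : ℝ → X := fun t => g ^ ⌊t / D⌋ • σ (t - ⌊t / D⌋ * D)
  have hshift : ∀ t, c (t + D) = g • c t := by
    intro t
    have h1 : ⌊(t + D) / D⌋ = ⌊t / D⌋ + 1 := by
      rw [add_div, div_self hDpos.ne', Int.floor_add_one]
    show g ^ ⌊(t + D) / D⌋ • σ (t + D - ⌊(t + D) / D⌋ * D) = g • g ^ ⌊t / D⌋ • σ (t - ⌊t / D⌋ * D)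
    rw [h1, zpow_add_one, ← smul_assoc, smul_eq_mul, (Commute.refl g).zpow_left _ |>.eq]
    congr 2
    push_cast
    ring
  have hshiftz : ∀ (k : ℤ) t, c (t + k * D) = g ^ k • c t := by
    intro k t
    have h1 : ⌊(t + k * D) / D⌋ = ⌊t / D⌋ + k := by
      rw [add_div, mul_div_assoc, div_self hDpos.ne', mul_one, Int.floor_add_intCast]
    show g ^ ⌊(t + k * D) / D⌋ • σ (t + k * D - ⌊(t + k * D) / D⌋ * D) =
      g ^ k • g ^ ⌊t / D⌋ • σ (t - ⌊t / D⌋ * D)
    rw [h1, ← mul_smul, ← zpow_add, add_comm k]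
    congr 2
    push_cast
    ring
  have hc0 : ∀ t, 0 ≤ t → t < D → c t = σ t := by
    intro t h0 h1
    have h2 : ⌊t / D⌋ = 0 := by
      rw [Int.floor_eq_zero_iff]
      exact ⟨by positivity, (div_lt_one hDpos).2 h1⟩
    show g ^ ⌊t / D⌋ • σ (t - ⌊t / D⌋ * D) = σ t
    rw [h2]
    simp
  have hc1 : ∀ t, 0 ≤ t → t ≤ D → c t = σ t := by
    intro t h0 h1
    rcases lt_or_eq_of_le h1 with h2 | h2
    · exact hc0 t h0 h2
    · rw [h2, hσ1]
      have := hshift 0
      rw [zero_add] at this
      rw [this, hc0 0 le_rfl hDpos, hσ0]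
  -- displacement of every point of the segment is D
  have hdisp : ∀ s, 0 ≤ s → s ≤ D → dist (σ s) (g • σ s) = D := by
    intro s h0 h1
    refine le_antisymm ?_ (hmin _)
    calc dist (σ s) (g • σ s) ≤ dist (σ s) (σ D) + dist (σ D) (g • σ s) := dist_triangle _ _ _
      _ = (D - s) + dist (g • σ 0) (g • σ s) := by
          rw [hσ s D h0 h1 le_rfl, hσ1, hσ0]
      _ = (D - s) + (s - 0) := by
          rw [dist_smul, hσ 0 s le_rfl h0 h1]
      _ = D := by ring
  have key0 : ∀ s t, 0 ≤ s → s < D → s ≤ t → t ≤ s + D → dist (c s) (c t) = t - s := by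
    intro s t h0 h1 hst ht
    rw [hc1 s h0 h1.le]
    rcases le_or_gt t D with h2 | h2
    · rw [hc1 t (h0.trans hst) h2, hσ s t h0 hst h2]
    · have h3 : c t = g • σ (t - D) := by
        have := hshift (t - D)
        rw [sub_add_cancel] at this
        rw [this, hc1 (t - D) (by linarith) (by linarith)]
      have h4 : dist (c t) (g • σ s) = s + D - t := by
        rw [h3, dist_smul, hσ (t - D) s (by linarith) (by linarith) h1.le]
        ring
      apply le_antisymm
      · calc dist (σ s) (c t) ≤ dist (σ s) (σ D) + dist (σ D) (c t) := dist_triangle _ _ _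
          _ = (D - s) + dist (g • σ 0) (g • σ (t - D)) := by
              rw [hσ s D h0 h1.le le_rfl, hσ1, hσ0, h3]
          _ = (D - s) + (t - D - 0) := by
              rw [dist_smul, hσ 0 (t - D) le_rfl (by linarith) (by linarith)]
          _ = t - s := by ring
      · have h5 := dist_triangle (σ s) (c t) (g • σ s)
        rw [hdisp s h0 h1.le, h4] at h5
        linarith
  have key : ∀ s t, s ≤ t → t ≤ s + D → dist (c s) (c t) = t - s := by
    intro s t hst ht
    have h1 : c s = g ^ ⌊s / D⌋ • c (s - ⌊s / D⌋ * D) := by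
      rw [← hshiftz, sub_add_cancel]
    have h2 : c t = g ^ ⌊s / D⌋ • c (t - ⌊s / D⌋ * D) := by
      rw [← hshiftz, sub_add_cancel]
    have h3 := Int.floor_le (s / D)
    have h4 := Int.lt_floor_add_one (s / D)
    rw [le_div_iff₀ hDpos] at h3
    rw [div_lt_iff₀ hDpos] at h4
    rw [h1, h2, dist_smul, key0 _ _ (by linarith) (by linarith) (by linarith) (by linarith)]
    ring
  refine ⟨c, n * D, by positivity, ?_, ?_⟩
  · intro t
    have := hshiftz n t
    rw [zpow_natCast, hgn, one_smul] at this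
    simpa using this
  · intro t
    refine ⟨D / 2, by positivity, fun s s' hs hs' => ?_⟩
    rw [abs_lt] at hs hs'
    rcases le_total s s' with h | h
    · rw [key s s' h (by linarith [hs.1, hs'.2]), abs_sub_comm, abs_of_nonneg (by linarith)]
    · rw [dist_comm, key s' s h (by linarith [hs'.1, hs.2]), abs_of_nonneg (by linarith)]

end Pool.Agent.CGeo
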