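import Mathlib
import Pool.Agent.CGeo.Basic

set_option autoImplicit false
open Set Filter Topology

namespace Pool.Agent.CGeo

universe u v

variable {X : Type u} [MetricSpace X] {c : ℝ → X} {ℓ : ℝ}

/-- The group of periods. -/
def periods (c : ℝ → X) : AddSubgroup ℝ where
  carrier := {a | ∀ t, c (t + a) = c t}
  zero_mem' := fun t => by simp
  add_mem' := by
    intro a b ha hb t
    rw [← add_assoc, hb, ha]
  neg_mem' := by
    intro a ha t
    have := ha (t + -a)
    rw [← this]
    congr 1
    ring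

/-- A closed geodesic has a smallest period. -/
lemma IsClosedGeodesic.exists_minimal_period (h : IsClosedGeodesic c ℓ) :
    ∃ q : ℝ, 0 < q ∧ (∀ t, c (t + q) = c t) ∧
      ∀ a : ℝ, (∀ t, c (t + a) = c t) → ∃ k : ℤ, a = k * q := by
  have hnd : ¬ Dense (periods c : Set ℝ) := by
    intro hd
    obtain ⟨ε, hε, hdist⟩ := h.locIsom 0
    obtain ⟨a, ha, ha1⟩ := hd.exists_mem_open isOpen_Ioo (nonempty_Ioo.2 (half_pos hε))
    have h1 := hdist a 0 (by rw [sub_zero, abs_of_pos ha1.1]; linarith [ha1.2])
      (by simpa using hε)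
    have h2 : c (0 + a) = c 0 := ha 0
    rw [zero_add] at h2
    rw [h2, dist_self, sub_zero, abs_of_pos ha1.1] at h1
    linarith [ha1.1]
  rcases AddSubgroup.dense_or_cyclic (periods c) with hd | ⟨a, ha⟩
  · exact absurd hd hnd
  have hℓ : ℓ ∈ periods c := h.periodic
  have ha0 : a ≠ 0 := by
    rintro rfl
    rw [ha] at hℓ
    simp only [AddSubgroup.closure_singleton_zero, AddSubgroup.mem_bot] at hℓ
    linarith [h.pos]
  have haP : a ∈ periods c := by rw [ha]; exact AddSubgroup.mem_closure_singleton_self a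
  have hmem : ∀ b ∈ periods c, ∃ k : ℤ, b = k * a := by
    intro b hb
    rw [ha, AddSubgroup.mem_closure_singleton] at hb
    obtain ⟨k, hk⟩ := hb
    exact ⟨k, by rw [← hk]; simp⟩
  rcases lt_or_gt_of_ne ha0 with h1 | h1
  · refine ⟨-a, by linarith, (periods c).neg_mem haP, fun b hb => ?_⟩
    obtain ⟨k, hk⟩ := hmem b hb
    exact ⟨-k, by rw [hk]; push_cast; ring⟩
  · exact ⟨a, h1, haP, fun b hb => hmem b hb⟩

variable {G : Type v} [Group G] [TopologicalSpace G]
  [IsTopologicalGroup G] [CompactSpace G] [T2Space G] [MulAction G X] [ContinuousSMul G X]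

/-- If every element of `G` shifts the closed geodesic `c` along itself, then the kernel of some
continuous character of `G` fixes all points of `c`. -/
theorem exists_character (h : IsClosedGeodesic c ℓ)
    (hs : ∀ g : G, ∃ a ∈ Icc (0 : ℝ) ℓ, ∀ t, g • c t = c (t + a)) :
    ∃ χ : G →* Circle, Continuous χ ∧ ∀ g, χ g = 1 → ∀ t, g • c t = c t := by
  obtain ⟨q, hq, hqp, hqm⟩ := h.exists_minimal_period
  choose a ha hga using hs
  have hexp : ∀ x y : ℝ, (∃ k : ℤ, x = y + k * q) →
      Circle.exp (2 * Real.pi / q * x) = Circle.exp (2 * Real.pi / q * y) := by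
    rintro x y ⟨k, rfl⟩
    rw [Circle.exp_eq_exp]
    refine ⟨k, ?_⟩
    field_simp
  have hexp' : ∀ x : ℝ, Circle.exp (2 * Real.pi / q * x) = 1 → ∃ k : ℤ, x = k * q := by
    intro x hx
    rw [Circle.exp_eq_one] at hx
    obtain ⟨k, hk⟩ := hx
    refine ⟨k, ?_⟩
    have hpi := Real.pi_pos
    have h2 : (2 * Real.pi / q) ≠ 0 := by positivity
    have h3 : 2 * Real.pi / q * x = 2 * Real.pi / q * (k * q) := by
      rw [hk]; field_simp
    exact mul_left_cancel₀ h2 h3
  have hmul : ∀ g g' : G, ∃ k : ℤ, a (g * g') = a g + a g' + k * q := by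
    intro g g'
    have h1 : ∀ t, c (t + a (g * g')) = c (t + (a g + a g')) := by
      intro t
      rw [← hga, mul_smul, hga, hga]
      congr 1
      ring
    obtain ⟨k, hk⟩ := hqm (a (g * g') - (a g + a g')) (fun t => by
      have := h1 (t - (a g + a g'))
      rw [sub_add_cancel] at this
      rw [← this]
      congr 1
      ring)
    exact ⟨k, by linarith⟩
  have hone : ∃ k : ℤ, a 1 = 0 + k * q := by
    obtain ⟨k, hk⟩ := hqm (a 1) (fun t => by rw [← hga, one_smul])
    exact ⟨k, by linarith⟩
  let χ : G →* Circle :=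
    { toFun := fun g => Circle.exp (2 * Real.pi / q * a g)
      map_one' := by
        rw [hexp _ _ hone]
        simp
      map_mul' := by
        intro g g'
        rw [hexp _ _ (hmul g g'), mul_add, Circle.exp_add] }
  refine ⟨χ, ?_, ?_⟩
  · rw [continuous_iff_isClosed]
    intro F hF
    have hcont : Continuous fun x : ℝ => Circle.exp (2 * Real.pi / q * x) := by fun_prop
    have h1 := isClosed_shift (G := G) h.continuous
      (Icc 0 ℓ ∩ (fun x : ℝ => Circle.exp (2 * Real.pi / q * x)) ⁻¹' F)
      (isCompact_Icc.inter_right (hF.preimage hcont))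
    convert h1 using 1
    ext g
    constructor
    · intro hg
      exact ⟨a g, ⟨ha g, hg⟩, hga g⟩
    · rintro ⟨b, ⟨-, hb⟩, hgb⟩
      show Circle.exp (2 * Real.pi / q * a g) ∈ F
      obtain ⟨k, hk⟩ := hqm (a g - b) (fun t => by
        have h2 := hga g (t - b)
        rw [hgb, sub_add_cancel] at h2
        rw [h2]
        congr 1
        ring)
      rw [hexp (a g) b ⟨k, by linarith⟩]
      exact hb
  · intro g hg t
    obtain ⟨k, hk⟩ := hexp' (a g) hg
    rw [hga, hk]
    have h1 : Function.Periodic c q := hqp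
    have := h1.int_mul k t
    simpa using this

end Pool.Agent.CGeo
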