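import Mathlib
import Pool.Agent.CGeo.Char

set_option autoImplicit false
open Set Filter Topology

namespace Pool.Agent.CGeo

universe u

variable {X : Type u} [MetricSpace X] [MulAction Circle X] [ContinuousSMul Circle X]
  [IsIsometricSMul Circle X] {c : ℝ → X} {ℓ : ℝ}

/-- A closed geodesic which is shifted along itself by a circle action whose orbits have length
at most `L` is either pointwise fixed or has length at most `L`. -/
theorem fixed_of_long (h : IsClosedGeodesic c ℓ)
    (hs : ∀ g : Circle, ∃ a ∈ Icc (0 : ℝ) ℓ, ∀ t, g • c t = c (t + a))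
    {L : ℝ} (hL : ∀ (s : ℝ) (p : X), dist (Circle.exp (2 * Real.pi * s) • p) p ≤ L * |s|)
    {q : ℝ} (hq : 0 < q) (hqp : ∀ t, c (t + q) = c t)
    (hqm : ∀ a : ℝ, (∀ t, c (t + a) = c t) → ∃ k : ℤ, a = k * q) (hLq : L < q) (g : Circle)
    (t : ℝ) : g • c t = c t := by
  have hL0 : 0 ≤ L := by
    have := hL 1 (c 0)
    simp only [abs_one, mul_one] at this
    exact dist_nonneg.trans this
  have hper : Function.Periodic c q := hqp
  have hperz : ∀ (k : ℤ) t, c (t + k * q) = c t := fun k t => by simpa using hper.int_mul k t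
  -- local isometry at `0`
  obtain ⟨ε₀, hε₀, hloc⟩ := h.locIsom 0
  set ε := min (min ε₀ (q / 2)) (q - L) with hε
  have hεpos : 0 < ε := by
    rw [hε]
    exact lt_min (lt_min hε₀ (by linarith)) (by linarith)
  have hε1 : ε ≤ ε₀ := (min_le_left _ _).trans (min_le_left _ _)
  have hε2 : ε ≤ q / 2 := (min_le_left _ _).trans (min_le_right _ _)
  have hε3 : ε ≤ q - L := min_le_right _ _
  -- every element shifts by an element of `[0, q]`
  have hs' : ∀ g : Circle, ∃ a ∈ Icc (0 : ℝ) q, ∀ t, g • c t = c (t + a) := by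
    intro g
    obtain ⟨a, -, ha⟩ := hs g
    obtain ⟨b, hb, hb1, -, -⟩ := exists_mem_Icc_shift (c := c) hq hqp a
    exact ⟨b, hb, fun t => by rw [ha, hb1]⟩
  -- small elements shift by a small amount
  have hsmall : ∃ δ > 0, ∀ s : ℝ, |s| < δ → ∃ b : ℝ, |b| < ε ∧ |b| ≤ L * |s| ∧
      ∀ t, Circle.exp (2 * Real.pi * s) • c t = c (t + b) := by
    have hcl := isClosed_shift (G := Circle) h.continuous (Icc ε (q - ε)) isCompact_Icc
    have h1 : (1 : Circle) ∈ {g : Circle | ∃ a ∈ Icc ε (q - ε), ∀ t, g • c t = c (t + a)}ᶜ := by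
      rintro ⟨a, ha, hat⟩
      obtain ⟨k, hk⟩ := hqm a (fun t => by rw [← hat, one_smul])
      have h2 : (0 : ℝ) < k := by
        by_contra hneg
        push Not at hneg
        have : (k : ℝ) * q ≤ 0 := mul_nonpos_of_nonpos_of_nonneg hneg hq.le
        linarith [ha.1]
      have h3 : (1 : ℝ) ≤ k := by exact_mod_cast Int.cast_pos.1 h2
      have h4 : q ≤ (k : ℝ) * q := by nlinarith
      linarith [ha.2]
    have hnhds := hcl.isOpen_compl.mem_nhds h1
    have hcont : Continuous fun s : ℝ => Circle.exp (2 * Real.pi * s) := by fun_prop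
    have ht := hcont.tendsto 0
    simp only [mul_zero, Circle.exp_zero] at ht
    obtain ⟨δ, hδ, hball⟩ := Metric.eventually_nhds_iff.1 (ht hnhds)
    refine ⟨δ, hδ, fun s hsδ => ?_⟩
    have h2 := hball (y := s) (by simpa [Real.dist_eq] using hsδ)
    obtain ⟨a, ha, hat⟩ := hs' (Circle.exp (2 * Real.pi * s))
    have h3 : a < ε ∨ q - ε < a := by
      by_contra hcon
      push Not at hcon
      exact h2 ⟨a, hcon, hat⟩
    have hb : ∃ b : ℝ, |b| < ε ∧ ∀ t, Circle.exp (2 * Real.pi * s) • c t = c (t + b) := by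
      rcases h3 with h3 | h3
      · exact ⟨a, by rw [abs_of_nonneg ha.1]; exact h3, hat⟩
      · refine ⟨a - q, ?_, fun t => ?_⟩
        · rw [abs_lt]
          constructor
          · linarith
          · linarith [ha.2]
        · rw [hat, ← hper (t + (a - q))]
          congr 1
          ring
    obtain ⟨b, hb1, hb2⟩ := hb
    refine ⟨b, hb1, ?_, hb2⟩
    have h4 := hL s (c 0)
    rw [hb2, zero_add, hloc b 0 (by rw [sub_zero]; linarith) (by simpa using hε₀), sub_zero] at h4
    exact h4
  obtain ⟨δ, hδ, hsm⟩ := hsmall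
  -- multiples
  have hpow : ∀ (s b : ℝ), (∀ t, Circle.exp (2 * Real.pi * s) • c t = c (t + b)) →
      ∀ (n : ℕ) t, Circle.exp (2 * Real.pi * (n * s)) • c t = c (t + n * b) := by
    intro s b hb n
    induction n with
    | zero => intro t; simp
    | succ n ih =>
      intro t
      have h1 : Circle.exp (2 * Real.pi * ((n + 1 : ℕ) * s)) =
          Circle.exp (2 * Real.pi * s) * Circle.exp (2 * Real.pi * (n * s)) := by
        rw [← Circle.exp_add]
        congr 1
        push_cast
        ring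
      rw [h1, mul_smul, ih, hb]
      congr 1
      push_cast
      ring
  -- every element shifts by at most `L / 2`
  have hall : ∀ g : Circle, ∃ b : ℝ, |b| ≤ L / 2 ∧ ∀ t, g • c t = c (t + b) := by
    intro g
    obtain ⟨θ, hθ⟩ : ∃ s : ℝ, |s| ≤ 1 / 2 ∧ Circle.exp (2 * Real.pi * s) = g := by
      refine ⟨Complex.arg (g : ℂ) / (2 * Real.pi), ?_, ?_⟩
      · rw [abs_div, abs_of_pos (by positivity : (0 : ℝ) < 2 * Real.pi),
          div_le_iff₀ (by positivity)]
        have := Complex.abs_arg_le_pi (g : ℂ)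
        linarith
      · rw [mul_div_cancel₀ _ (by positivity : (2 * Real.pi) ≠ 0)]
        exact Circle.exp_arg g
    obtain ⟨n, hn⟩ := exists_nat_gt (1 / δ)
    have hn0 : (0 : ℝ) < n := lt_trans (by positivity) hn
    obtain ⟨b, -, hb2, hb3⟩ := hsm (θ / n) (by
      rw [abs_div, abs_of_pos hn0, div_lt_iff₀ hn0]
      rw [div_lt_iff₀ hδ] at hn
      have := hθ.1
      nlinarith)
    refine ⟨n * b, ?_, fun t => ?_⟩
    · rw [abs_mul, abs_of_pos hn0]
      rw [abs_div, abs_of_pos hn0] at hb2
      have h2 : (n : ℝ) * |b| ≤ L * |θ| := by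
        calc (n : ℝ) * |b| ≤ n * (L * (|θ| / n)) := by gcongr
          _ = L * |θ| := by field_simp
      have h3 : L * |θ| ≤ L * (1 / 2) := by
        apply mul_le_mul_of_nonneg_left hθ.1 hL0
      linarith
    · have := hpow (θ / n) b hb3 n t
      rw [mul_div_cancel₀ _ hn0.ne', hθ.2] at this
      exact this
  -- small elements do not move `c`
  have hzero : ∀ s : ℝ, |s| < δ → ∀ t, Circle.exp (2 * Real.pi * s) • c t = c t := by
    intro s hsδ t
    obtain ⟨b, hb1, -, hb3⟩ := hsm s hsδ
    by_contra hne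
    have hb0 : b ≠ 0 := by
      rintro rfl
      exact hne (by rw [hb3, add_zero])
    have hbpos : 0 < |b| := abs_pos.2 hb0
    -- the first multiple beyond `L / 2`
    have hex : ∃ n : ℕ, L / 2 < n * |b| := by
      obtain ⟨n, hn⟩ := exists_nat_gt (L / 2 / |b|)
      exact ⟨n, by rwa [div_lt_iff₀ hbpos] at hn⟩
    classical
    set n := Nat.find hex with hn
    have hn1 : L / 2 < n * |b| := Nat.find_spec hex
    have hn2 : n * |b| < q - L / 2 := by
      have hnpos : n ≠ 0 := by
        intro h0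
        rw [h0] at hn1
        simp only [Nat.cast_zero, zero_mul] at hn1
        linarith
      obtain ⟨m, hm⟩ := Nat.exists_eq_succ_of_ne_zero hnpos
      have h3 : ¬ (L / 2 < m * |b|) := Nat.find_min hex (by rw [← hn, hm]; exact Nat.lt_succ_self m)
      rw [hm]
      push_cast
      push Not at h3
      linarith
    obtain ⟨b', hb'1, hb'2⟩ := hall (Circle.exp (2 * Real.pi * (n * s)))
    obtain ⟨k, hk⟩ := hqm (n * b - b') (fun t => by
      have h4 := hpow s b hb3 n (t - b')
      rw [hb'2, sub_add_cancel] at h4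
      rw [h4]
      congr 1
      ring)
    -- contradiction modulo `q`
    have hnb : |(n : ℝ) * b| = n * |b| := by
      rw [abs_mul, Nat.abs_cast]
    have h5 : |(k : ℝ) * q| < q := by
      rw [← hk]
      calc |(n : ℝ) * b - b'| ≤ |(n : ℝ) * b| + |b'| := abs_sub _ _
        _ < (q - L / 2) + L / 2 := by rw [hnb]; linarith
        _ = q := by ring
    have h6 : k = 0 := by
      by_contra hk0
      have h7 : (1 : ℝ) ≤ |(k : ℝ)| := by
        have : (1 : ℤ) ≤ |k| := Int.one_le_abs hk0
        exact_mod_cast this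
      rw [abs_mul, abs_of_pos hq] at h5
      nlinarith
    rw [h6] at hk
    simp only [Int.cast_zero, zero_mul] at hk
    have h8 : (n : ℝ) * b = b' := by linarith
    have h9 : |b'| = n * |b| := by rw [← h8, hnb]
    linarith
  -- conclusion
  obtain ⟨θ, hθ⟩ : ∃ s : ℝ, Circle.exp (2 * Real.pi * s) = g := by
    refine ⟨Complex.arg (g : ℂ) / (2 * Real.pi), ?_⟩
    rw [mul_div_cancel₀ _ (by positivity : (2 * Real.pi) ≠ 0)]
    exact Circle.exp_arg g
  obtain ⟨n, hn⟩ := exists_nat_gt (|θ| / δ)
  have hn0 : (0 : ℝ) < n := lt_of_le_of_lt (by positivity) hn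
  have h1 := hpow (θ / n) 0 (fun t => by
    rw [add_zero]
    exact hzero (θ / n) (by
      rw [abs_div, abs_of_pos hn0, div_lt_iff₀ hn0]
      rw [div_lt_iff₀ hδ] at hn
      linarith) t) n t
  rw [mul_div_cancel₀ _ hn0.ne', hθ, mul_zero, add_zero] at h1
  exact h1

end Pool.Agent.CGeo
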