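import Mathlib
import Pool.Agent.CGeo.Axis

set_option autoImplicit false
open Set Filter Topology Bundle Manifold
open scoped ENNReal ContDiff

namespace Pool.Agent.CGeo

universe u v w

/-- In a Riemannian manifold (the distance is the infimum of the lengths of `C^1` paths)
approximate segments exist. -/
theorem hasApproxSegments {E : Type u} [NormedAddCommGroup E] [NormedSpace ℝ E] {H : Type v}
    [TopologicalSpace H] (I : ModelWithCorners ℝ E H) {M : Type w} [MetricSpace M]
    [ChartedSpace H M] [RiemannianBundle (fun (x : M) ↦ TangentSpace I x)]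
    [IsRiemannianManifold I M] : HasApproxSegments M := by
  intro x y ε hε
  set D := dist x y with hD
  have hr : riemannianEDist I x y < ENNReal.ofReal (D + ε) := by
    rw [← IsRiemannianManifold.out (I := I) x y, edist_dist]
    exact (ENNReal.ofReal_lt_ofReal_iff (by positivity)).2 (by linarith)
  obtain ⟨γ, h0, h1, hγ, hlen⟩ := exists_lt_of_riemannianEDist_lt hr
  have hγc : ContinuousOn γ (Icc 0 1) := hγ.continuousOn
  -- distances are bounded by lengths
  have hdist : ∀ a b, 0 ≤ a → a ≤ b → b ≤ 1 →
      ENNReal.ofReal (dist (γ a) (γ b)) ≤ pathELength I γ a b := by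
    intro a b ha hab hb
    rw [← edist_dist, IsRiemannianManifold.out (I := I)]
    exact riemannianEDist_le_pathELength (hγ.mono (Icc_subset_Icc ha hb)) rfl rfl hab
  -- total length bound on four points
  have hfour : ∀ a b, 0 ≤ a → a ≤ b → b ≤ 1 →
      dist x (γ a) + dist (γ a) (γ b) + dist (γ b) y ≤ D + ε := by
    intro a b ha hab hb
    have e1 := hdist 0 a le_rfl ha (hab.trans hb)
    have e2 := hdist a b ha hab hb
    have e3 := hdist b 1 (ha.trans hab) hb le_rfl
    rw [h0] at e1
    rw [h1] at e3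
    have e4 : pathELength I γ 0 a + pathELength I γ a b + pathELength I γ b 1 =
        pathELength I γ 0 1 := by
      rw [pathELength_add ha hab, pathELength_add (ha.trans hab) hb]
    have e5 : ENNReal.ofReal (dist x (γ a) + dist (γ a) (γ b) + dist (γ b) y) ≤
        ENNReal.ofReal (D + ε) := by
      rw [ENNReal.ofReal_add (by positivity) (by positivity),
        ENNReal.ofReal_add (by positivity) (by positivity)]
      refine le_trans ?_ hlen.le
      rw [← e4]
      gcongr
    exact (ENNReal.ofReal_le_ofReal_iff (by positivity)).1 e5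
  -- first hitting times
  let S : ℝ → Set ℝ := fun t => {a | a ∈ Icc (0 : ℝ) 1 ∧ t ≤ dist x (γ a)}
  have hSne : ∀ t, t ≤ D → (S t).Nonempty := fun t ht =>
    ⟨1, ⟨zero_le_one, le_rfl⟩, by rw [h1]; exact ht⟩
  have hSbdd : ∀ t, BddBelow (S t) := fun t => ⟨0, fun a ha => ha.1.1⟩
  have hdc : ContinuousOn (fun a => dist x (γ a)) (Icc 0 1) := continuous_dist.comp_continuousOn (continuousOn_const.prodMk hγc)
  have hScl : ∀ t, IsClosed (S t) := by
    intro t
    exact hdc.preimage_isClosed_of_isClosed isClosed_Icc isClosed_Ici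
  let τ : ℝ → ℝ := fun t => sInf (S t)
  have hτmem : ∀ t, t ≤ D → τ t ∈ S t := fun t ht => (hScl t).csInf_mem (hSne t ht) (hSbdd t)
  have hτmono : ∀ s t, s ≤ t → t ≤ D → τ s ≤ τ t := by
    intro s t hst ht
    exact csInf_le_csInf (hSbdd s) (hSne t ht) fun a ha => ⟨ha.1, hst.trans ha.2⟩
  have hτeq : ∀ t, 0 ≤ t → t ≤ D → dist x (γ (τ t)) = t := by
    intro t ht0 htD
    have hm := hτmem t htD
    refine le_antisymm ?_ hm.2
    by_contra hlt
    push Not at hlt
    -- intermediate value gives an earlier time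
    have hsub : Icc (0 : ℝ) (τ t) ⊆ Icc 0 1 := Icc_subset_Icc le_rfl hm.1.2
    have hiv := intermediate_value_Icc hm.1.1 (hdc.mono hsub)
    have h00 : dist x (γ 0) = 0 := by rw [h0, dist_self]
    have hin : t ∈ Icc (dist x (γ 0)) (dist x (γ (τ t))) := ⟨by rw [h00]; exact ht0, hlt.le⟩
    obtain ⟨a, ha, hat⟩ := hiv hin
    have haS : a ∈ S t := ⟨hsub ha, by
      show t ≤ dist x (γ a)
      rw [show dist x (γ a) = t from hat]⟩
    have h2 : τ t ≤ a := csInf_le (hSbdd t) haS
    have h3 : a = τ t := le_antisymm ha.2 h2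
    rw [h3] at hat
    have hat' : dist x (γ (τ t)) = t := hat
    linarith
  have hτ0 : ∀ t, t ≤ D → 0 ≤ τ t ∧ τ t ≤ 1 := fun t ht => (hτmem t ht).1
  classical
  let f : ℝ → M := fun t => if t < D then γ (τ t) else y
  have hf1 : ∀ t, t < D → f t = γ (τ t) := fun t ht => if_pos ht
  have hf2 : ∀ t, ¬ t < D → f t = y := fun t ht => if_neg ht
  refine ⟨f, ?_, ?_, ?_⟩
  · by_cases hD0 : 0 < D
    · rw [hf1 0 hD0]
      have := hτeq 0 le_rfl hD0.le
      exact (dist_eq_zero.1 this).symm
    · rw [hf2 0 hD0]
      have : D = 0 := le_antisymm (not_lt.1 hD0) dist_nonneg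
      exact (dist_eq_zero.1 (hD ▸ this)).symm
  · rw [hf2 D (lt_irrefl _)]
  · intro s t hs hst ht
    rcases lt_or_eq_of_le ht with htD | htD
    · have hsD : s < D := lt_of_le_of_lt hst htD
      rw [hf1 s hsD, hf1 t htD]
      have e1 := hfour (τ s) (τ t) (hτ0 s hsD.le).1 (hτmono s t hst ht) (hτ0 t ht).2
      rw [hτeq s hs hsD.le] at e1
      have e2 := dist_triangle x (γ (τ s)) (γ (τ t))
      rw [hτeq s hs hsD.le, hτeq t (hs.trans hst) ht] at e2
      have e3 := dist_triangle x (γ (τ t)) y
      rw [hτeq t (hs.trans hst) ht] at e3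
      rw [abs_le]
      constructor
      · linarith
      · rw [← hD] at e3
        linarith
    · have ht' : ¬ t < D := by rw [htD]; exact lt_irrefl _
      rw [hf2 t ht']
      by_cases hsD : s < D
      · rw [hf1 s hsD]
        have e1 := hfour (τ s) (τ s) (hτ0 s hsD.le).1 le_rfl (hτ0 s hsD.le).2
        rw [hτeq s hs hsD.le, dist_self] at e1
        have e2 := dist_triangle x (γ (τ s)) y
        rw [hτeq s hs hsD.le, ← hD] at e2
        rw [abs_le]
        constructor
        · linarith
        · linarith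
      · rw [hf2 s hsD, dist_self]
        have : s = t := by
          rw [htD] at hst ⊢
          exact le_antisymm hst (not_lt.1 hsD)
        rw [this]
        simp [hε.le]

end Pool.Agent.CGeo
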